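import Pool.Agent.Y111.BP.Gen

set_option autoImplicit false

/-! # Asymptotic form of the schemes -/

namespace Pool.Agent.Y111.BP

open Finset

theorem power_bound_gen (N d s : ℕ) (hN : 2 ≤ N) (hd : 2 ≤ d)
    (hs : ∀ k m : ℕ, (k + 1) ^ s * m ≤ (N * d) ^ k → HasScheme 2 m (3 * N ^ k))
    (α : ℝ) (hα : Real.log N / Real.log (N * d) < α) :
    ∃ K : ℝ, ∀ m : ℕ, 1 ≤ m → (minSpace 2 m : ℝ) ≤ K * (m : ℝ) ^ α := by
  have hN' : (2 : ℝ) ≤ N := by exact_mod_cast hN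
  have hd' : (2 : ℝ) ≤ d := by exact_mod_cast hd
  have hP4 : (4 : ℝ) ≤ N * d := by nlinarith
  have hl8 : 0 < Real.log N := Real.log_pos (by linarith)
  have hl24 : 0 < Real.log (N * d) := Real.log_pos (by linarith)
  have hα0 : 0 < α := lt_trans (div_pos hl8 hl24) hα
  set P : ℝ := (N : ℝ) * d with hP
  have hP0 : 0 < P := by linarith
  set lam : ℝ := (N : ℝ) ^ (1 / α) with hlam
  have hlam0 : 0 < lam := Real.rpow_pos_of_pos (by linarith) _
  have hlam1 : 1 < lam := Real.one_lt_rpow (by linarith) (by positivity)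
  have hlam24 : lam < P := by
    rw [← Real.log_lt_log_iff hlam0 hP0, hlam, Real.log_rpow (by linarith)]
    rw [div_lt_iff₀ hl24] at hα
    rw [one_div, inv_mul_lt_iff₀ hα0]
    linarith
  have hq : ∀ n : ℕ, (lam ^ n) ^ α = (N : ℝ) ^ n := by
    intro n
    rw [← Real.rpow_natCast lam n, ← Real.rpow_mul hlam0.le, hlam, ← Real.rpow_mul (by linarith),
      ← Real.rpow_natCast (N : ℝ) n]
    congr 1
    field_simp
  have ht : Filter.Tendsto (fun k : ℕ => ((k : ℝ)) ^ s / (P / lam : ℝ) ^ k) Filter.atTop (nhds 0) :=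
    tendsto_pow_const_div_const_pow_of_one_lt s (by rw [one_lt_div hlam0]; exact hlam24)
  obtain ⟨C1, hC1⟩ := ht.bddAbove_range
  have hC1' : ∀ k : ℕ, (k : ℝ) ^ s / (P / lam) ^ k ≤ C1 := by
    intro k
    have := hC1 ⟨k, rfl⟩
    simpa using this
  have hC10 : 0 ≤ C1 := le_trans (by positivity) (hC1' 0)
  set C0 : ℝ := 2 ^ s * C1 + 1 with hC0
  have hC01 : 1 ≤ C0 := by
    have : (0 : ℝ) ≤ 2 ^ s * C1 := by positivity
    linarith
  have hC0b : ∀ k : ℕ, ((k : ℝ) + 1) ^ s * lam ^ k ≤ C0 * P ^ k := by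
    intro k
    rcases Nat.eq_zero_or_pos k with h0 | hpos
    · subst h0
      simpa using hC01
    · have h1 := hC1' k
      have h2 : (0 : ℝ) < (P / lam) ^ k := by positivity
      rw [div_le_iff₀ h2, div_pow] at h1
      have h4 : (0 : ℝ) < lam ^ k := by positivity
      have h5 : (k : ℝ) ^ s * lam ^ k ≤ C1 * P ^ k := by
        calc (k : ℝ) ^ s * lam ^ k ≤ (C1 * (P ^ k / lam ^ k)) * lam ^ k :=
              mul_le_mul_of_nonneg_right h1 h4.le
          _ = C1 * P ^ k := by field_simp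
      have hk1 : (1 : ℝ) ≤ k := by exact_mod_cast hpos
      have h6 : ((k : ℝ) + 1) ^ s ≤ 2 ^ s * (k : ℝ) ^ s := by
        rw [← mul_pow]
        exact pow_le_pow_left₀ (by positivity) (by linarith) s
      have hPk : (0 : ℝ) < P ^ k := by positivity
      calc ((k : ℝ) + 1) ^ s * lam ^ k ≤ (2 ^ s * (k : ℝ) ^ s) * lam ^ k :=
            mul_le_mul_of_nonneg_right h6 h4.le
        _ = 2 ^ s * ((k : ℝ) ^ s * lam ^ k) := by ring
        _ ≤ 2 ^ s * (C1 * P ^ k) := mul_le_mul_of_nonneg_left h5 (by positivity)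
        _ ≤ C0 * P ^ k := by rw [hC0]; nlinarith
  refine ⟨3 * N * C0 ^ α, ?_⟩
  intro m hm
  have hm1 : (1 : ℝ) ≤ m := by exact_mod_cast hm
  have hex : ∃ k : ℕ, C0 * m ≤ lam ^ k := by
    obtain ⟨k, hk⟩ := pow_unbounded_of_one_lt (C0 * m) hlam1
    exact ⟨k, hk.le⟩
  classical
  set k := Nat.find hex with hk
  have hk1 : C0 * m ≤ lam ^ k := Nat.find_spec hex
  have hsch : HasScheme 2 m (3 * N ^ k) := by
    apply hs
    have h1 : ((k : ℝ) + 1) ^ s * m ≤ P ^ k := by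
      have h2 : ((k : ℝ) + 1) ^ s * (C0 * m) ≤ C0 * P ^ k :=
        (mul_le_mul_of_nonneg_left hk1 (by positivity)).trans (hC0b k)
      have h3 : C0 * (((k : ℝ) + 1) ^ s * m) ≤ C0 * P ^ k := by
        calc C0 * (((k : ℝ) + 1) ^ s * m) = ((k : ℝ) + 1) ^ s * (C0 * m) := by ring
          _ ≤ _ := h2
      exact le_of_mul_le_mul_left h3 (by linarith)
    rw [hP] at h1
    exact_mod_cast h1
  have hle : (minSpace 2 m : ℝ) ≤ 3 * (N : ℝ) ^ k := by
    have : minSpace 2 m ≤ 3 * N ^ k := Nat.sInf_le hsch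
    exact_mod_cast this
  refine hle.trans ?_
  have hmα : (1 : ℝ) ≤ (m : ℝ) ^ α := Real.one_le_rpow hm1 hα0.le
  have hCα : (1 : ℝ) ≤ C0 ^ α := Real.one_le_rpow hC01 hα0.le
  rcases Nat.eq_zero_or_pos k with h0 | hpos
  · rw [h0, pow_zero, mul_one]
    have : (1 : ℝ) ≤ C0 ^ α * (m : ℝ) ^ α := one_le_mul_of_one_le_of_one_le hCα hmα
    nlinarith
  · have hmin : ¬ (C0 * m ≤ lam ^ (k - 1)) := Nat.find_min hex (by omega)
    push Not at hmin
    have h1 : (N : ℝ) ^ (k - 1) ≤ (C0 * m) ^ α := by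
      rw [← hq (k - 1)]
      exact Real.rpow_le_rpow (by positivity) hmin.le hα0.le
    have h2 : (N : ℝ) ^ k = N * (N : ℝ) ^ (k - 1) := by
      rw [← pow_succ']
      congr 1
      omega
    rw [h2]
    rw [Real.mul_rpow (by linarith) (by linarith)] at h1
    calc 3 * ((N : ℝ) * (N : ℝ) ^ (k - 1)) ≤ 3 * (N * (C0 ^ α * (m : ℝ) ^ α)) := by
          have : (N : ℝ) * (N : ℝ) ^ (k - 1) ≤ N * (C0 ^ α * (m : ℝ) ^ α) :=
            mul_le_mul_of_nonneg_left h1 (by linarith)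
          linarith
      _ = 3 * N * C0 ^ α * (m : ℝ) ^ α := by ring

/-- A power bound with exponent below `2 / 3` gives `o(m^(2/3))`. -/
theorem little_o {α K : ℝ} (hα : α < 2 / 3)
    (h : ∀ m : ℕ, 1 ≤ m → (minSpace 2 m : ℝ) ≤ K * (m : ℝ) ^ α) :
    Filter.Tendsto (fun m : ℕ => (minSpace 2 m : ℝ) / (m : ℝ) ^ (2 / 3 : ℝ)) Filter.atTop (nhds 0) := by
  have h1 : Filter.Tendsto (fun m : ℕ => (m : ℝ) ^ (-(2 / 3 - α))) Filter.atTop (nhds 0) :=
    (tendsto_rpow_neg_atTop (by linarith : 0 < 2 / 3 - α)).comp tendsto_natCast_atTop_atTop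
  have h2 : Filter.Tendsto (fun m : ℕ => K * (m : ℝ) ^ (-(2 / 3 - α))) Filter.atTop (nhds 0) := by
    simpa using h1.const_mul K
  apply squeeze_zero' _ _ h2
  · exact Filter.Eventually.of_forall (fun m => by positivity)
  · filter_upwards [Filter.eventually_ge_atTop 1] with m hm
    have hm0 : (0 : ℝ) < m := by exact_mod_cast hm
    rw [div_le_iff₀ (Real.rpow_pos_of_pos hm0 _), mul_assoc, ← Real.rpow_add hm0]
    have : -(2 / 3 - α) + 2 / 3 = α := by ring
    rw [this]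
    exact h m hm

end Pool.Agent.Y111.BP
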