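import Mathlib

set_option autoImplicit false

namespace Pool.Agent.Y111.BP

open Finset

/-- Correctness of an adaptive two-probe scheme for subsets of size at most `n` of a universe `X`,
with table positions given by `A`, `B`, `C`. For every admissible set there is a filling of the
three tables such that every element is answered correctly. -/
def Correct {X α β γ : Type} (n : ℕ) (A : X → α) (B : X → β) (C : X → γ) : Prop :=
  ∀ S : Finset X, S.card ≤ n →
    ∃ (tA : α → Bool) (tB : β → Bool) (tC : γ → Bool),
      ∀ x : X, (x ∈ S ↔ (if tA (A x) = false then tB (B x) else tC (C x)) = true)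

/-- There is a correct adaptive two-probe scheme with exactly `s` bits in total for subsets of size
at most `n` of a universe with `m` elements. -/
def HasScheme (n m s : ℕ) : Prop :=
  ∃ sA sB sC : ℕ, sA + sB + sC = s ∧
    ∃ (A : Fin m → Fin sA) (B : Fin m → Fin sB) (C : Fin m → Fin sC), Correct n A B C

/-- The minimum space of a correct adaptive two-probe scheme. -/
noncomputable def minSpace (n m : ℕ) : ℕ := sInf {s | HasScheme n m s}

/-- Transfer to a universe `Fin m` that embeds in `X`. -/
theorem transfer {X α β γ : Type} [Fintype α] [Fintype β] [Fintype γ] {n m : ℕ}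
    {A : X → α} {B : X → β} {C : X → γ} (h : Correct n A B C) (f : Fin m → X)
    (hf : Function.Injective f) :
    HasScheme n m (Fintype.card α + Fintype.card β + Fintype.card γ) := by
  classical
  refine ⟨_, _, _, rfl, fun x => Fintype.equivFin α (A (f x)), fun x => Fintype.equivFin β (B (f x)),
    fun x => Fintype.equivFin γ (C (f x)), ?_⟩
  intro S hS
  obtain ⟨tA, tB, tC, ht⟩ := h (S.image f) (card_image_le.trans hS)
  refine ⟨fun i => tA ((Fintype.equivFin α).symm i), fun i => tB ((Fintype.equivFin β).symm i),
    fun i => tC ((Fintype.equivFin γ).symm i), ?_⟩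
  intro x
  have h1 := ht (f x)
  rw [Finset.mem_image] at h1
  simp only [Equiv.symm_apply_apply]
  rw [← h1]
  constructor
  · intro hx
    exact ⟨x, hx, rfl⟩
  · rintro ⟨y, hy, hyx⟩
    rwa [← hf hyx]

/-- Sanity check: some correct scheme exists for all parameters, so `minSpace` is attained. -/
theorem exists_scheme (n m : ℕ) : ∃ s, HasScheme n m s := by
  classical
  refine ⟨_, transfer (X := Fin m) (α := Unit) (β := Fin m) (γ := Unit) (A := fun _ => ())
    (B := fun x => x) (C := fun _ => ()) ?_ (fun x => x) Function.injective_id⟩
  intro S _
  refine ⟨fun _ => false, fun x => decide (x ∈ S), fun _ => false, ?_⟩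
  intro x
  simp

theorem minSpace_spec (n m : ℕ) : HasScheme n m (minSpace n m) :=
  Nat.sInf_mem (exists_scheme n m)

/-! ### Storing two elements -/

theorem correct_two {X α β γ : Type} (A : X → α) (B : X → β) (C : X → γ)
    (hB : ∀ x y, A x = A y → B x = B y → x = y)
    (hC : ∀ x y, A x = A y → C x = C y → x = y)
    (h : ∀ x y, A x ≠ A y →
      ((∀ e, A e = A x → B e = B y → e = x) ∧ (∀ e, A e = A y → B e = B x → e = y)) ∨
      ((∀ e, A e = A x → C e = C y → e = x) ∧ (∀ e, A e = A y → C e = C x → e = y)) ∨
      (∀ e e', A e = A e' → A e ≠ A x → A e ≠ A y → B e = B x → C e' = C y → False) ∨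
      (∀ e e', A e = A e' → A e ≠ A x → A e ≠ A y → C e = C x → B e' = B y → False)) :
    Correct 2 A B C := by
  classical
  -- two elements in the same block, or a single element
  have same : ∀ x y : X, A x = A y → ∃ (tA : α → Bool) (tB : β → Bool) (tC : γ → Bool),
      ∀ e : X, ((e = x ∨ e = y) ↔ (if tA (A e) = false then tB (B e) else tC (C e)) = true) := by
    intro x y hxy
    refine ⟨fun a => decide (a ≠ A x), fun b => decide (b = B x ∨ b = B y), fun _ => false, ?_⟩
    intro e
    by_cases he : A e = A x
    · simp only [he, ne_eq, not_true_eq_false, decide_false, ↓reduceIte, decide_eq_true_eq]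
      constructor
      · rintro (rfl | rfl)
        · exact Or.inl rfl
        · exact Or.inr rfl
      · rintro (h1 | h1)
        · exact Or.inl (hB _ _ he h1)
        · exact Or.inr (hB _ _ (he.trans hxy) h1)
    · have h1 : ¬ (e = x ∨ e = y) := by
        rintro (rfl | rfl)
        · exact he rfl
        · exact he hxy.symm
      simp [he, h1]
  have two : ∀ x y : X, ∃ (tA : α → Bool) (tB : β → Bool) (tC : γ → Bool),
      ∀ e : X, ((e = x ∨ e = y) ↔ (if tA (A e) = false then tB (B e) else tC (C e)) = true) := by
    intro x y
    by_cases hxy : A x = A y
    · exact same x y hxy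
    rcases h x y hxy with ⟨h1, h2⟩ | ⟨h1, h2⟩ | h1 | h1
    · -- both in the table B
      refine ⟨fun a => decide (a ≠ A x ∧ a ≠ A y), fun b => decide (b = B x ∨ b = B y),
        fun _ => false, ?_⟩
      intro e
      by_cases hex : A e = A x
      · simp only [hex, ne_eq, not_true_eq_false, false_and, decide_false, ↓reduceIte,
          decide_eq_true_eq]
        constructor
        · rintro (rfl | rfl)
          · exact Or.inl rfl
          · exact Or.inr rfl
        · rintro (h3 | h3)
          · exact Or.inl (hB _ _ hex h3)
          · exact Or.inl (h1 e hex h3)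
      · by_cases hey : A e = A y
        · simp only [hey, ne_eq, not_true_eq_false, and_false, decide_false, ↓reduceIte,
            decide_eq_true_eq]
          constructor
          · rintro (rfl | rfl)
            · exact Or.inl rfl
            · exact Or.inr rfl
          · rintro (h3 | h3)
            · exact Or.inr (h2 e hey h3)
            · exact Or.inr (hB _ _ hey h3)
        · have h3 : ¬ (e = x ∨ e = y) := by
            rintro (rfl | rfl)
            · exact hex rfl
            · exact hey rfl
          simp [hex, hey, h3]
    · -- both in the table C
      refine ⟨fun a => decide (a = A x ∨ a = A y), fun _ => false,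
        fun c => decide (c = C x ∨ c = C y), ?_⟩
      intro e
      by_cases hex : A e = A x
      · have h4 : decide (A e = A x ∨ A e = A y) = true := by simp [hex]
        simp only [h4, Bool.true_eq_false, ↓reduceIte, decide_eq_true_eq]
        constructor
        · rintro (rfl | rfl)
          · exact Or.inl rfl
          · exact Or.inr rfl
        · rintro (h3 | h3)
          · exact Or.inl (hC _ _ hex h3)
          · exact Or.inl (h1 e hex h3)
      · by_cases hey : A e = A y
        · have h4 : decide (A e = A x ∨ A e = A y) = true := by simp [hey]
          simp only [h4, Bool.true_eq_false, ↓reduceIte, decide_eq_true_eq]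
          constructor
          · rintro (rfl | rfl)
            · exact Or.inl rfl
            · exact Or.inr rfl
          · rintro (h3 | h3)
            · exact Or.inr (h2 e hey h3)
            · exact Or.inr (hC _ _ hey h3)
        · have h3 : ¬ (e = x ∨ e = y) := by
            rintro (rfl | rfl)
            · exact hex rfl
            · exact hey rfl
          simp [hex, hey, h3]
    · -- x in B, y in C
      refine ⟨fun a => decide (a ≠ A x ∧ (a = A y ∨ ∃ e, A e = a ∧ B e = B x)),
        fun b => decide (b = B x), fun c => decide (c = C y), ?_⟩
      intro e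
      by_cases hex : A e = A x
      · have hne : A e ≠ A y := fun h5 => hxy (hex.symm.trans h5)
        have h4 : decide (A e ≠ A x ∧ (A e = A y ∨ ∃ e', A e' = A e ∧ B e' = B x)) = false := by
          simp [hex]
        simp only [h4, ↓reduceIte, decide_eq_true_eq]
        constructor
        · rintro (rfl | rfl)
          · rfl
          · exact absurd rfl hne
        · intro h3
          exact Or.inl (hB _ _ hex h3)
      · by_cases hey : A e = A y
        · have h4 : decide (A e ≠ A x ∧ (A e = A y ∨ ∃ e', A e' = A e ∧ B e' = B x)) = true := by
            rw [decide_eq_true_eq]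
            exact ⟨hex, Or.inl hey⟩
          simp only [h4, Bool.true_eq_false, ↓reduceIte, decide_eq_true_eq]
          constructor
          · rintro (rfl | rfl)
            · exact absurd rfl hex
            · rfl
          · intro h3
            exact Or.inr (hC _ _ hey h3)
        · have h3 : ¬ (e = x ∨ e = y) := by
            rintro (rfl | rfl)
            · exact hex rfl
            · exact hey rfl
          by_cases hee : ∃ e', A e' = A e ∧ B e' = B x
          · have h4 : decide (A e ≠ A x ∧ (A e = A y ∨ ∃ e', A e' = A e ∧ B e' = B x)) = true := by
              rw [decide_eq_true_eq]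
              exact ⟨hex, Or.inr hee⟩
            simp only [h4, Bool.true_eq_false, ↓reduceIte, decide_eq_true_eq, h3, false_iff]
            intro h5
            obtain ⟨e', he', hb'⟩ := hee
            exact h1 e' e he' (by rw [he']; exact hex) (by rw [he']; exact hey) hb' h5
          · have h4 : decide (A e ≠ A x ∧ (A e = A y ∨ ∃ e', A e' = A e ∧ B e' = B x)) = false := by
              rw [decide_eq_false_iff_not]
              rintro ⟨_, h5 | h5⟩
              · exact hey h5
              · exact hee h5
            simp only [h4, ↓reduceIte, decide_eq_true_eq, h3, false_iff]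
            intro h5
            exact hee ⟨e, rfl, h5⟩
    · -- x in C, y in B
      refine ⟨fun a => decide (a ≠ A y ∧ (a = A x ∨ ∃ e, A e = a ∧ B e = B y)),
        fun b => decide (b = B y), fun c => decide (c = C x), ?_⟩
      intro e
      by_cases hey : A e = A y
      · have hne : A e ≠ A x := fun h5 => hxy (h5.symm.trans hey)
        have h4 : decide (A e ≠ A y ∧ (A e = A x ∨ ∃ e', A e' = A e ∧ B e' = B y)) = false := by
          simp [hey]
        simp only [h4, ↓reduceIte, decide_eq_true_eq]
        constructor
        · rintro (rfl | rfl)
          · exact absurd rfl hne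
          · rfl
        · intro h3
          exact Or.inr (hB _ _ hey h3)
      · by_cases hex : A e = A x
        · have h4 : decide (A e ≠ A y ∧ (A e = A x ∨ ∃ e', A e' = A e ∧ B e' = B y)) = true := by
            rw [decide_eq_true_eq]
            exact ⟨hey, Or.inl hex⟩
          simp only [h4, Bool.true_eq_false, ↓reduceIte, decide_eq_true_eq]
          constructor
          · rintro (rfl | rfl)
            · rfl
            · exact absurd rfl hey
          · intro h3
            exact Or.inl (hC _ _ hex h3)
        · have h3 : ¬ (e = x ∨ e = y) := by
            rintro (rfl | rfl)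
            · exact hex rfl
            · exact hey rfl
          by_cases hee : ∃ e', A e' = A e ∧ B e' = B y
          · have h4 : decide (A e ≠ A y ∧ (A e = A x ∨ ∃ e', A e' = A e ∧ B e' = B y)) = true := by
              rw [decide_eq_true_eq]
              exact ⟨hey, Or.inr hee⟩
            simp only [h4, Bool.true_eq_false, ↓reduceIte, decide_eq_true_eq, h3, false_iff]
            intro h5
            obtain ⟨e', he', hb'⟩ := hee
            exact h1 e e' he'.symm hex hey h5 hb'
          · have h4 : decide (A e ≠ A y ∧ (A e = A x ∨ ∃ e', A e' = A e ∧ B e' = B y)) = false := by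
              rw [decide_eq_false_iff_not]
              rintro ⟨_, h5 | h5⟩
              · exact hex h5
              · exact hee h5
            simp only [h4, ↓reduceIte, decide_eq_true_eq, h3, false_iff]
            intro h5
            exact hee ⟨e, rfl, h5⟩
  intro S hS
  have hcases : S.card = 0 ∨ S.card = 1 ∨ S.card = 2 := by omega
  rcases hcases with h0 | h1 | h2
  · rw [Finset.card_eq_zero] at h0
    subst h0
    exact ⟨fun _ => false, fun _ => false, fun _ => false, fun x => by simp⟩
  · rw [Finset.card_eq_one] at h1
    obtain ⟨x, rfl⟩ := h1
    obtain ⟨tA, tB, tC, ht⟩ := two x x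
    refine ⟨tA, tB, tC, fun e => ?_⟩
    rw [← ht e]
    simp
  · rw [Finset.card_eq_two] at h2
    obtain ⟨x, y, _, rfl⟩ := h2
    obtain ⟨tA, tB, tC, ht⟩ := two x y
    refine ⟨tA, tB, tC, fun e => ?_⟩
    rw [← ht e]
    simp

end Pool.Agent.Y111.BP
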