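import Pool.Agent.Y111.BP.Asym

set_option autoImplicit false

/-! # A letter system in the integers modulo 13 with four letters -/

namespace Pool.Agent.Y111.BP

def bt : Fin 4 → ZMod 13 := ![0, 1, 3, 4]
def gt : Fin 4 → ZMod 13 := ![0, 2, 6, 11]
def g13 : Fin 8 → Fin 4 → ℤ :=
  ![![0, 6, 8, 8], ![6, 0, 0, 6], ![0, 4, 0, 2], ![7, 0, 0, 3], ![4, 5, 3, 0], ![2, 4, 8, 0],
    ![0, 0, 0, 0], ![-19, -19, -19, -19]]

theorem code13 : IsCode bt gt (fun _ _ => 0) g13 where
  injB := by decide +kernel
  injC := by decide +kernel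
  sumf := by decide +kernel
  sumg := by decide +kernel
  case1 := by decide +kernel
  case2 := by decide +kernel

end Pool.Agent.Y111.BP
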