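import Pool.Agent.Y111.BP.Asym

set_option autoImplicit false

/-! # A letter system in the integers modulo 25 with six letters -/

namespace Pool.Agent.Y111.BP

def b25 : Fin 6 → ZMod 25 := ![0, 1, 2, 3, 6, 7]
def c25 : Fin 6 → ZMod 25 := ![0, 15, 13, 24, 10, 9]
def g25 : Fin 8 → Fin 6 → ℤ :=
  ![![-10, -12, -5, -4, -2, -8], ![-32, -9, -4, -22, -9, -15], ![16, 3, 0, 7, 8, 15],
    ![3, 6, 0, 0, 1, 8], ![7, 6, 5, 4, 1, 0], ![16, 6, 4, 15, 1, 0], ![0, 0, 0, 0, 0, 0],
    ![0, 0, 0, 0, 0, 0]]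

theorem code25 : IsCode b25 c25 (fun _ _ => 0) g25 where
  injB := by decide +kernel
  injC := by decide +kernel
  sumf := by decide +kernel
  sumg := by decide +kernel
  case1 := by decide +kernel
  case2 := by decide +kernel

end Pool.Agent.Y111.BP
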