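import Pool.Agent.Y111.BP.Base

set_option autoImplicit false

/-! # Two-probe schemes from letter systems in finite abelian groups -/

namespace Pool.Agent.Y111.BP

open Finset

section gen

variable {L H : Type} [Fintype L] [DecidableEq L] [AddCommGroup H] [Fintype H] [DecidableEq H]

/-- number of occurrences of a letter -/
def cnt {k : ℕ} (w : Fin k → L) (x : L) : ℕ := (univ.filter (fun i => w i = x)).card

/-- words with given numbers of occurrences -/
def InT {k : ℕ} (T : L → Fin (k + 1)) (w : Fin k → L) : Prop := ∀ x, cnt w x = T x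

instance {k : ℕ} (T : L → Fin (k + 1)) : DecidablePred (InT T) := fun w => by
  unfold InT; infer_instance

theorem sum_type {k : ℕ} {w : Fin k → L} {T : L → Fin (k + 1)} (h : InT T w) (f : L → ℤ) :
    ∑ i, f (w i) = ∑ x, ((T x : ℕ) : ℤ) * f x := by
  rw [← Finset.sum_fiberwise (s := univ) (g := w) (f := fun i => f (w i))]
  apply Finset.sum_congr rfl
  intro x _
  have h1 : ∑ i ∈ univ.filter (fun i => w i = x), f (w i) =
      ∑ _i ∈ univ.filter (fun i => w i = x), f x := by
    apply Finset.sum_congr rfl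
    intro i hi
    rw [(Finset.mem_filter.1 hi).2]
  rw [h1, Finset.sum_const, nsmul_eq_mul]
  have h2 := h x
  unfold cnt at h2
  rw [h2]

/-- The conditions on a letter system. -/
structure IsCode (β γ : L → H) (f g : Fin 8 → L → ℤ) : Prop where
  injB : Function.Injective β
  injC : Function.Injective γ
  sumf : ∀ x, f 0 x + f 1 x + f 2 x + f 3 x + f 4 x + f 5 x + f 6 x + f 7 x = 0
  sumg : ∀ x, g 0 x + g 1 x + g 2 x + g 3 x + g 4 x + g 5 x + g 6 x + g 7 x = 0
  case1 : ∀ v p q : L, γ q + β v = γ v + β p →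
    ∀ u r t : L, γ t + β u + β v = γ v + β r + β p →
    ∀ r' t' : L, β r' + γ u = γ t' + β p →
      (if v = p then 0 else 1) ≤
        f 0 u + f 1 v + f 2 p + f 3 q + f 4 r + f 5 t + f 6 r' + f 7 t'
  case2 : ∀ v p u q : L, γ q + β p = γ u + β v →
    ∀ r t : L, γ t + β u + β v = γ v + β r + β p →
    ∀ r' t' : L, β r' + γ u = γ t' + β p →
      (if v = p then 0 else 1) ≤
        g 0 u + g 1 v + g 2 p + g 3 q + g 4 r + g 5 t + g 6 r' + g 7 t'

theorem words_eq {k : ℕ} {T : L → Fin (k + 1)} {f : Fin 8 → L → ℤ}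
    (hf : ∀ x, f 0 x + f 1 x + f 2 x + f 3 x + f 4 x + f 5 x + f 6 x + f 7 x = 0)
    {u v p q r t r' t' : Fin k → L}
    (hu : InT T u) (hv : InT T v) (hp : InT T p) (hq : InT T q) (hr : InT T r) (ht : InT T t)
    (hr' : InT T r') (ht' : InT T t')
    (h : ∀ i, (if v i = p i then 0 else 1) ≤ f 0 (u i) + f 1 (v i) + f 2 (p i) + f 3 (q i) +
      f 4 (r i) + f 5 (t i) + f 6 (r' i) + f 7 (t' i)) : v = p := by
  have hsum : ∑ i, (if v i = p i then (0 : ℤ) else 1) ≤
      ∑ i, (f 0 (u i) + f 1 (v i) + f 2 (p i) + f 3 (q i) +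
      f 4 (r i) + f 5 (t i) + f 6 (r' i) + f 7 (t' i)) := Finset.sum_le_sum (fun i _ => h i)
  have h0 : ∑ i, (f 0 (u i) + f 1 (v i) + f 2 (p i) + f 3 (q i) +
      f 4 (r i) + f 5 (t i) + f 6 (r' i) + f 7 (t' i)) = 0 := by
    rw [Finset.sum_add_distrib, Finset.sum_add_distrib, Finset.sum_add_distrib,
      Finset.sum_add_distrib, Finset.sum_add_distrib, Finset.sum_add_distrib,
      Finset.sum_add_distrib, sum_type hu, sum_type hv, sum_type hp, sum_type hq, sum_type hr,
      sum_type ht, sum_type hr', sum_type ht', ← Finset.sum_add_distrib, ← Finset.sum_add_distrib,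
      ← Finset.sum_add_distrib, ← Finset.sum_add_distrib, ← Finset.sum_add_distrib,
      ← Finset.sum_add_distrib, ← Finset.sum_add_distrib]
    apply Finset.sum_eq_zero
    intro x _
    rw [← mul_add, ← mul_add, ← mul_add, ← mul_add, ← mul_add, ← mul_add, ← mul_add, hf x,
      mul_zero]
  rw [h0] at hsum
  have hz : ∑ i, (if v i = p i then (0 : ℤ) else 1) = 0 := by
    apply le_antisymm hsum
    apply Finset.sum_nonneg
    intro i _
    split_ifs <;> norm_num
  funext i
  have h1 := (Finset.sum_eq_zero_iff_of_nonneg (by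
    intro i _
    split_ifs <;> norm_num)).1 hz i (Finset.mem_univ i)
  by_contra hne
  rw [if_neg hne] at h1
  exact one_ne_zero h1

variable {β γ : L → H} {f g : Fin 8 → L → ℤ}

/-- first kind of failure is impossible -/
theorem no1 (hc : IsCode β γ f g) {k : ℕ} {T : L → Fin (k + 1)} {a a' b c : Fin k → H}
    {u v p q r t r' t' : Fin k → L}
    (hu : InT T u) (hv : InT T v) (hp : InT T p) (hq : InT T q) (hr : InT T r) (ht : InT T t)
    (hr' : InT T r') (ht' : InT T t') (hne : a ≠ a')
    (e1 : a + β ∘ p = a' + β ∘ v) (e2 : a + γ ∘ q = a' + γ ∘ v)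
    (e3 : b + β ∘ r = a + β ∘ u) (e4 : b + γ ∘ t = a' + γ ∘ v)
    (e5 : c + γ ∘ t' = a + γ ∘ u) (e6 : c + β ∘ r' = a' + β ∘ v) : False := by
  have hvp : v = p := by
    apply words_eq hc.sumf hu hv hp hq hr ht hr' ht'
    intro i
    have f1 := congrFun e1 i
    have f2 := congrFun e2 i
    have f3 := congrFun e3 i
    have f4 := congrFun e4 i
    have f5 := congrFun e5 i
    have f6 := congrFun e6 i
    simp only [Pi.add_apply, Function.comp] at f1 f2 f3 f4 f5 f6
    apply hc.case1
    · have : γ (q i) + β (v i) - (γ (v i) + β (p i)) =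
          (a i + γ (q i)) - (a' i + γ (v i)) - ((a i + β (p i)) - (a' i + β (v i))) := by abel
      rw [f1, f2, sub_self, sub_self, sub_self] at this
      exact sub_eq_zero.1 this
    · have : γ (t i) + β (u i) + β (v i) - (γ (v i) + β (r i) + β (p i)) =
          ((b i + γ (t i)) - (a' i + γ (v i))) - ((b i + β (r i)) - (a i + β (u i)))
            - ((a i + β (p i)) - (a' i + β (v i))) := by abel
      rw [f1, f3, f4, sub_self, sub_self, sub_self, sub_self, sub_self] at this
      exact sub_eq_zero.1 this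
    · have : β (r' i) + γ (u i) - (γ (t' i) + β (p i)) =
          ((c i + β (r' i)) - (a' i + β (v i))) - ((c i + γ (t' i)) - (a i + γ (u i)))
            - ((a i + β (p i)) - (a' i + β (v i))) := by abel
      simp only [f1, f5, f6, sub_self] at this
      exact sub_eq_zero.1 this
  rw [hvp] at e1
  exact hne (add_right_cancel e1)

/-- second kind of failure is impossible -/
theorem no2 (hc : IsCode β γ f g) {k : ℕ} {T : L → Fin (k + 1)} {a a' b c : Fin k → H}
    {u v p q r t r' t' : Fin k → L}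
    (hu : InT T u) (hv : InT T v) (hp : InT T p) (hq : InT T q) (hr : InT T r) (ht : InT T t)
    (hr' : InT T r') (ht' : InT T t') (hne : a ≠ a')
    (e1 : a + β ∘ p = a' + β ∘ v) (e2 : a' + γ ∘ q = a + γ ∘ u)
    (e3 : b + β ∘ r = a + β ∘ u) (e4 : b + γ ∘ t = a' + γ ∘ v)
    (e5 : c + γ ∘ t' = a + γ ∘ u) (e6 : c + β ∘ r' = a' + β ∘ v) : False := by
  have hvp : v = p := by
    apply words_eq hc.sumg hu hv hp hq hr ht hr' ht'
    intro i
    have f1 := congrFun e1 i
    have f2 := congrFun e2 i
    have f3 := congrFun e3 i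
    have f4 := congrFun e4 i
    have f5 := congrFun e5 i
    have f6 := congrFun e6 i
    simp only [Pi.add_apply, Function.comp] at f1 f2 f3 f4 f5 f6
    apply hc.case2
    · have : γ (q i) + β (p i) - (γ (u i) + β (v i)) =
          ((a' i + γ (q i)) - (a i + γ (u i))) + ((a i + β (p i)) - (a' i + β (v i))) := by abel
      rw [f1, f2, sub_self, sub_self, add_zero] at this
      exact sub_eq_zero.1 this
    · have : γ (t i) + β (u i) + β (v i) - (γ (v i) + β (r i) + β (p i)) =
          ((b i + γ (t i)) - (a' i + γ (v i))) - ((b i + β (r i)) - (a i + β (u i)))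
            - ((a i + β (p i)) - (a' i + β (v i))) := by abel
      rw [f1, f3, f4, sub_self, sub_self, sub_self, sub_self, sub_self] at this
      exact sub_eq_zero.1 this
    · have : β (r' i) + γ (u i) - (γ (t' i) + β (p i)) =
          ((c i + β (r' i)) - (a' i + β (v i))) - ((c i + γ (t' i)) - (a i + γ (u i)))
            - ((a i + β (p i)) - (a' i + β (v i))) := by abel
      simp only [f1, f5, f6, sub_self] at this
      exact sub_eq_zero.1 this
  rw [hvp] at e1
  exact hne (add_right_cancel e1)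

/-- The scheme: elements are pairs (block, word); positions `a`, `a + β w`, `a + γ w`. -/
theorem scheme_gen (hc : IsCode β γ f g) (k : ℕ) (T : L → Fin (k + 1)) :
    Correct (X := (Fin k → H) × {w : Fin k → L // InT T w}) (α := Fin k → H) (β := Fin k → H)
      (γ := Fin k → H) 2
      (fun x => x.1) (fun x => x.1 + β ∘ x.2.1) (fun x => x.1 + γ ∘ x.2.1) := by
  apply correct_two
  · rintro ⟨a, u, hu⟩ ⟨a', v, hv⟩ h1 h2
    simp only at h1 h2
    subst h1
    have h3 : β ∘ u = β ∘ v := add_left_cancel h2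
    have : u = v := by
      funext i
      exact hc.injB (congrFun h3 i)
    subst this
    rfl
  · rintro ⟨a, u, hu⟩ ⟨a', v, hv⟩ h1 h2
    simp only at h1 h2
    subst h1
    have h3 : γ ∘ u = γ ∘ v := add_left_cancel h2
    have : u = v := by
      funext i
      exact hc.injC (congrFun h3 i)
    subst this
    rfl
  · rintro ⟨a, u, hu⟩ ⟨a', v, hv⟩ hne
    simp only at hne
    by_contra hcon
    push Not at hcon
    obtain ⟨hBB, hCC, hBC, hCB⟩ := hcon
    have hP : (∃ p, InT T p ∧ a + β ∘ p = a' + β ∘ v) ∨ (∃ p, InT T p ∧ a' + β ∘ p = a + β ∘ u) := by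
      by_cases h1 : ∀ e : (Fin k → H) × {w : Fin k → L // InT T w}, e.1 = a →
          e.1 + β ∘ e.2.1 = a' + β ∘ v → e = (a, ⟨u, hu⟩)
      · right
        obtain ⟨⟨e1, e2, he2⟩, h2, h3, _⟩ := hBB h1
        simp only at h2 h3
        subst h2
        exact ⟨e2, he2, h3⟩
      · left
        push Not at h1
        obtain ⟨⟨e1, e2, he2⟩, h2, h3, _⟩ := h1
        simp only at h2 h3
        subst h2
        exact ⟨e2, he2, h3⟩
    have hQ : (∃ q, InT T q ∧ a + γ ∘ q = a' + γ ∘ v) ∨ (∃ q, InT T q ∧ a' + γ ∘ q = a + γ ∘ u) := by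
      by_cases h1 : ∀ e : (Fin k → H) × {w : Fin k → L // InT T w}, e.1 = a →
          e.1 + γ ∘ e.2.1 = a' + γ ∘ v → e = (a, ⟨u, hu⟩)
      · right
        obtain ⟨⟨e1, e2, he2⟩, h2, h3, _⟩ := hCC h1
        simp only at h2 h3
        subst h2
        exact ⟨e2, he2, h3⟩
      · left
        push Not at h1
        obtain ⟨⟨e1, e2, he2⟩, h2, h3, _⟩ := h1
        simp only at h2 h3
        subst h2
        exact ⟨e2, he2, h3⟩
    obtain ⟨⟨b1, r, hr⟩, ⟨b2, t, ht⟩, h1, -, -, h4, h5, -⟩ := hBC
    simp only at h1 h4 h5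
    subst h1
    obtain ⟨⟨c1, t', ht'⟩, ⟨c2, r', hr'⟩, h6, -, -, h9, h10, -⟩ := hCB
    simp only at h6 h9 h10
    subst h6
    rcases hP with ⟨p, hp, hp1⟩ | ⟨p, hp, hp1⟩
    · rcases hQ with ⟨q, hq, hq1⟩ | ⟨q, hq, hq1⟩
      · exact no1 hc hu hv hp hq hr ht hr' ht' hne hp1 hq1 h4 h5 h9 h10
      · exact no2 hc hu hv hp hq hr ht hr' ht' hne hp1 hq1 h4 h5 h9 h10
    · rcases hQ with ⟨q, hq, hq1⟩ | ⟨q, hq, hq1⟩
      · exact no2 hc hv hu hp hq hr' ht' hr ht (Ne.symm hne) hp1 hq1 h10 h9 h5 h4
      · exact no1 hc hv hu hp hq hr' ht' hr ht (Ne.symm hne) hp1 hq1 h10 h9 h5 h4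

/-! ### Counting -/

omit [Fintype L] in
theorem cnt_lt {k : ℕ} (w : Fin k → L) (x : L) : cnt w x < k + 1 := by
  unfold cnt
  have := Finset.card_filter_le (univ : Finset (Fin k)) (fun i => w i = x)
  simp only [Finset.card_univ, Fintype.card_fin] at this
  omega

/-- the type of a word -/
def typ {k : ℕ} (w : Fin k → L) : L → Fin (k + 1) := fun x => ⟨cnt w x, cnt_lt w x⟩

theorem inT_iff {k : ℕ} (w : Fin k → L) (T : L → Fin (k + 1)) : InT T w ↔ typ w = T := by
  constructor
  · intro h
    funext x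
    apply Fin.ext
    exact h x
  · intro h x
    rw [← h]
    rfl

theorem exists_type (k : ℕ) : ∃ T : L → Fin (k + 1),
    Fintype.card L ^ k ≤ (k + 1) ^ Fintype.card L * Fintype.card {w : Fin k → L // InT T w} := by
  by_contra hcon
  push Not at hcon
  have hfib : Fintype.card L ^ k = ∑ T : L → Fin (k + 1), Fintype.card {w : Fin k → L // InT T w} := by
    have h1 : (univ : Finset (Fin k → L)).card =
        ∑ T ∈ (univ : Finset (L → Fin (k + 1))), (univ.filter (fun w : Fin k → L => typ w = T)).card :=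
      Finset.card_eq_sum_card_fiberwise (fun w _ => by simp)
    rw [Finset.card_univ, Fintype.card_fun, Fintype.card_fin] at h1
    rw [h1]
    apply Finset.sum_congr rfl
    intro T _
    rw [Fintype.card_subtype]
    congr 1
    ext w
    rw [Finset.mem_filter, Finset.mem_filter, inT_iff]
  have hT : (univ : Finset (L → Fin (k + 1))).card = (k + 1) ^ Fintype.card L := by
    rw [Finset.card_univ, Fintype.card_fun, Fintype.card_fin]
  have h1 : ∑ T : L → Fin (k + 1), (k + 1) ^ Fintype.card L *
      Fintype.card {w : Fin k → L // InT T w} < ∑ _T : L → Fin (k + 1), Fintype.card L ^ k := by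
    apply Finset.sum_lt_sum_of_nonempty
    · exact ⟨fun _ => 0, Finset.mem_univ _⟩
    · intro T _
      exact hcon T
  rw [← Finset.mul_sum, ← hfib, Finset.sum_const, hT, smul_eq_mul] at h1
  exact lt_irrefl _ h1

theorem hasScheme_gen (hc : IsCode β γ f g) (k m : ℕ)
    (h : (k + 1) ^ Fintype.card L * m ≤ (Fintype.card H * Fintype.card L) ^ k) :
    HasScheme 2 m (3 * Fintype.card H ^ k) := by
  obtain ⟨T, hT⟩ := exists_type (L := L) k
  have hcard : Fintype.card ((Fin k → H) × {w : Fin k → L // InT T w}) =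
      Fintype.card H ^ k * Fintype.card {w : Fin k → L // InT T w} := by
    rw [Fintype.card_prod, Fintype.card_fun, Fintype.card_fin]
  have hm : m ≤ Fintype.card ((Fin k → H) × {w : Fin k → L // InT T w}) := by
    rw [hcard]
    have h1 : (k + 1) ^ Fintype.card L * m ≤
        (k + 1) ^ Fintype.card L * (Fintype.card H ^ k * Fintype.card {w : Fin k → L // InT T w}) := by
      calc (k + 1) ^ Fintype.card L * m ≤ (Fintype.card H * Fintype.card L) ^ k := h
        _ = Fintype.card H ^ k * Fintype.card L ^ k := mul_pow _ _ _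
        _ ≤ Fintype.card H ^ k * ((k + 1) ^ Fintype.card L *
            Fintype.card {w : Fin k → L // InT T w}) := Nat.mul_le_mul_left _ hT
        _ = (k + 1) ^ Fintype.card L * (Fintype.card H ^ k *
            Fintype.card {w : Fin k → L // InT T w}) := by ring
    exact Nat.le_of_mul_le_mul_left h1 (by positivity)
  have ht := transfer (scheme_gen hc k T)
    (fun i : Fin m => (Fintype.equivFin ((Fin k → H) × {w : Fin k → L // InT T w})).symm
      (Fin.castLE hm i))
    ((Equiv.injective _).comp (Fin.castLE_injective hm))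
  have hG : Fintype.card (Fin k → H) = Fintype.card H ^ k := by
    rw [Fintype.card_fun, Fintype.card_fin]
  rw [hG] at ht
  have e : Fintype.card H ^ k + Fintype.card H ^ k + Fintype.card H ^ k =
    3 * Fintype.card H ^ k := by ring
  rw [e] at ht
  exact ht

end gen

end Pool.Agent.Y111.BP
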